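import Pool.Agent.W88.ET0LE

set_option autoImplicit false

/-! The hierarchy of the `k`-restricted ET0L systems collapses exactly at `k = 2`. -/

namespace Pool.Agent.Results.MP_4de4a9_lc.LeastIsTwo

open Pool.Agent.W88.LSys

/-- The least positive `l` such that the families of the languages of `k`-restricted and of
`(k + 1)`-restricted ET0L systems (with letters taken from an infinite set `α` of symbols) agree
for all `k ≥ l` is `2`. -/
theorem result (α : Type) [Infinite α] :
    IsLeast {l : ℕ | 1 ≤ l ∧ ∀ k, l ≤ k → ET0L.Family α k = ET0L.Family α (k + 1)} 2 :=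
  ET0L.threshold

end Pool.Agent.Results.MP_4de4a9_lc.LeastIsTwo
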